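import Pool.Agent.H67.LW.Spec

/-!
# LW: part BAS (helper10)
-/

set_option autoImplicit false

namespace LW

theorem bas_thm : S_BAS := by
  classical
  intro E I _ _ _ Z c l hc hZ hl
  let c' : I → Z := fun i => ⟨c i, hc i⟩
  have hspan : Submodule.span (ZMod 2) (Set.range c') = ⊤ := by
    rw [eq_top_iff]
    rintro ⟨z, hz⟩ _
    have h1 := hZ hz
    have h2 : Submodule.span (ZMod 2) (Set.range c) =
        (Submodule.span (ZMod 2) (Set.range c')).map Z.subtype := by
      rw [Submodule.map_span, ← Set.range_comp]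
      rfl
    rw [h2, Submodule.mem_map] at h1
    obtain ⟨w, hw, hwz⟩ := h1
    have h3 : w = ⟨z, hz⟩ := Subtype.ext hwz
    rwa [h3] at hw
  obtain ⟨b, hb, hbs, hbl⟩ := exists_linearIndependent (ZMod 2) (Set.range c')
  have hbf : Finite b := (Set.toFinite b).to_subtype
  let B : Module.Basis b (ZMod 2) Z := Module.Basis.mk hbl (by
    rw [Subtype.range_coe_subtype, Set.ofPred_mem_eq, hbs, hspan])
  have : Fintype b := Fintype.ofFinite b
  have hcard : Module.finrank (ZMod 2) Z = Fintype.card b := Module.finrank_eq_card_basis B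
  let e : b ≃ Fin (Module.finrank (ZMod 2) Z) :=
    (Fintype.equivFin b).trans (finCongr hcard.symm)
  refine ⟨B.reindex e, fun x => ?_⟩
  refine le_trans ?_ (hl x)
  have hB : ∀ i, (B.reindex e) i = ((e.symm i : b) : Z) := by
    intro i
    rw [Module.Basis.reindex_apply, Module.Basis.mk_apply]
  have hex : ∀ i : b, ∃ j, c' j = i := fun i => hb i.2
  choose f hf using hex
  have hval : ∀ i, ((B.reindex e) i : E → ZMod 2) = c (f (e.symm i)) := by
    intro i
    rw [hB, ← hf]
  refine Nat.card_le_card_of_injective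
    (fun i : {i // ((B.reindex e) i : E → ZMod 2) x ≠ 0} =>
      (⟨f (e.symm i.1), by rw [← hval]; exact i.2⟩ : {j // c j x ≠ 0})) ?_
  intro i j hij
  have h1 : f (e.symm i.1) = f (e.symm j.1) := congrArg Subtype.val hij
  have h2 : (e.symm i.1 : b) = e.symm j.1 := by
    apply Subtype.ext
    rw [← hf, ← hf, h1]
  exact Subtype.ext (e.symm.injective h2)

end LW
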